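import Pool.Agent.Work.MP_1aab6d_tree_helper61.Sys

/-!
# The descent on configurations
-/

set_option autoImplicit false

universe u

namespace UnfS

open Ordinal Classical

namespace TS

variable {V Γ : Type u} {S : TS V Γ}

/-- The property of an item of a configuration with target `a` and current node `p`. -/
def Item (S : TS V Γ) (Φ : V → Set V) (a p : V) (w : V → Bool) (x : Ordinal.{u} × V) : Prop :=
  x.2 ∈ S.P ∧ (x.2 = p ∨ S.Ab x.2 p) ∧ S.Ab x.2 a ∧ (∀ φ ∈ Φ x.2, ¬ S.Cn x.2 φ a) ∧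
    S.Dead x.1 x.2 w ∧ ∀ j, S.Up x.2 p j → ¬ S.Lo x.1 j w

/-- Passing to the next node `j`. -/
lemma Item.step (hS : S.Ok) {Φ : V → Set V} {a a' p j : V} {b : Bool} {w : V → Bool}
    {x : Ordinal.{u} × V} (h : Item S Φ a p w x) (hp : p ∈ S.P) (hj : j ∈ S.P) (hpj : S.Ab p j)
    (hmin : ∀ i ∈ S.P, S.Ab p i → ¬ S.Ab i j)
    (hja : j = a ∨ S.Ab j a) (ha' : S.Ab j a' ∨ a' = a)
    (hl : ¬ S.Lo x.1 j (up w j b)) : Item S Φ a' j (up w j b) x := by
  obtain ⟨h1, h2, h3, h4, h5, h6⟩ := h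
  have hxj : S.Ab x.2 j := by
    rcases h2 with h2 | h2
    · rw [h2]; exact hpj
    · exact hS.tr _ h1 _ hp _ h2 hpj
  have hne : ∀ i ∈ S.P, S.Ab i j → i ≠ j := fun i hi h e => hS.irr i hi (by rw [e] at h; rw [e]; exact h)
  refine ⟨h1, Or.inr hxj, ?_, ?_, ?_, ?_⟩
  · rcases ha' with ha' | ha'
    · exact hS.tr _ h1 _ hj _ hxj ha'
    · rw [ha']; exact h3
  · intro φ hφ hC
    rcases ha' with ha' | ha'
    · apply h4 φ hφ
      have e1 := hS.csymm _ _ _ (hS.cone _ h1 _ hj _ hxj ha')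
      have e2 : S.Cn x.2 j a := by
        rcases hja with e | e
        · rw [e]; exact hS.crefl _ _
        · exact hS.cone _ h1 _ hj _ hxj e
      exact hS.ctrans _ _ _ _ (hS.ctrans _ _ _ _ hC e1) e2
    · rw [ha'] at hC; exact h4 φ hφ hC
  · refine h5.congr fun i hi => ?_
    have hij : i ≠ j := by
      rcases hi with rfl | hi
      · exact hne _ h1 hxj
      · exact hne i hi.1 (hS.tr _ hi.1 _ h1 _ hi.2 hxj)
    rw [up_ne _ _ hij]
  · rintro j' ⟨g1, g2, g3⟩ hlo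
    rcases g3 with rfl | g3
    · exact hl hlo
    · have hup : S.Up x.2 p j' := by
        refine ⟨g1, g2, ?_⟩
        rcases hS.ch j' g1 p hp j g3 hpj with e | e | e
        · exact Or.inl e
        · exact Or.inr e
        · exact absurd g3 (hmin j' g1 e)
      refine h6 j' hup (hlo.congr fun i hi => ?_)
      have hij : i ≠ j := by
        rcases hi with rfl | hi
        · exact hne _ g1 g3
        · exact hne i hi.1 (hS.tr _ hi.1 _ g1 _ hi.2 g3)
      rw [up_ne _ _ hij]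

/-- A service is kept along flips of unserved petals. -/
lemma keep (hS : S.Ok) {g : Γ} {i : V} (hi : i ∈ S.B g) {L : List (Ordinal.{u} × V)} :
    ∀ {w : V → Bool}, AW (fun w x => x.2 ∈ S.B g → ¬ S.Sv w g x.2) w L → S.Sv w g i →
      S.Sv (en w L) g i := by
  induction L with
  | nil => intro w _ h; exact h
  | cons x L ih =>
    intro w h hs
    refine ih h.2 ?_
    by_cases hx : x.2 ∈ S.B g
    · exact hS.F g w x.2 hx (h.1 hx) i hi (Or.inr hs)
    · refine hS.loc g w _ (fun k hk => ?_) i hi hs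
      rw [fp_ne _ fun e => hx (by rw [← e]; exact hk)]

/-- A flipped unserved petal is served afterwards. -/
lemma gain (hS : S.Ok) {g : Γ} {i : V} (hi : i ∈ S.B g) {L : List (Ordinal.{u} × V)} :
    ∀ {w : V → Bool}, AW (fun w x => x.2 ∈ S.B g → ¬ S.Sv w g x.2) w L → (∃ x ∈ L, x.2 = i) →
      S.Sv (en w L) g i := by
  induction L with
  | nil => rintro w _ ⟨x, hx, _⟩; exact absurd hx List.not_mem_nil
  | cons y L ih =>
    rintro w h ⟨x, hx, hxi⟩
    by_cases hy : y.2 = i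
    · show S.Sv (en (fp y.2 w) L) g i
      refine keep hS hi h.2 ?_
      rw [hy]
      exact hS.F g w i hi (by rw [← hy]; exact h.1 (by rw [hy]; exact hi)) i hi (Or.inl rfl)
    · rcases List.mem_cons.1 hx with rfl | hx
      · exact absurd hxi hy
      · exact ih h.2 ⟨x, hx, hxi⟩

/-- There are no configurations. -/
theorem no_cfg (hS : S.Ok) {Φ : V → Set V} (hΦf : ∀ c, (Φ c).Finite)
    (hΦ : ∀ c θ w, S.Dead θ c w → S.DB (S.Lo θ) (Φ c) c w) (μ : Ordinal.{u}) :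
    ∀ (L : List (Ordinal.{u} × V)), sm L = μ → ∀ (n : ℕ) (w : V → Bool) (g : Γ) (p : V),
      p ∈ S.P → (p = S.an g ∨ S.Ab p (S.an g)) → AW (Item S Φ (S.an g) p) w L →
      (∃ L0 x, L = L0 ++ [x] ∧ x.2 ∈ S.B g ∧ ∃ y ∈ L0, y.2 = x.2) →
      {j | S.Up p (S.an g) j}.ncard = n → False := by
  induction μ using WellFoundedLT.induction with
  | _ μ ihμ =>
  intro L hμ n
  induction n using Nat.strong_induction_on with
  | _ n ih =>
  intro w g p hp hpa hAW hlast hn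
  set a := S.an g with ha
  have hRf : {j | S.Up p a j}.Finite := by
    refine ((hS.fin a).insert a).subset fun j hj => ?_
    rcases hj.2.2 with h | h
    · exact Or.inl h
    · exact Or.inr ⟨hj.1, h⟩
  have hltL : ∀ x ∈ L, x.2 ∈ S.P ∧ (x.2 = p ∨ S.Ab x.2 p) ∧ S.Ab x.2 a := by
    intro x hx
    obtain ⟨w', h⟩ := hAW.mem x hx
    exact ⟨h.1, h.2.1, h.2.2.1⟩
  by_cases hR : {j | S.Up p a j} = ∅
  · -- the end: all items are unserved in `g`
    have hun : AW (fun w x => x.2 ∈ S.B g → ¬ S.Sv w g x.2) w L := by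
      refine hAW.mono fun w x _ hx hxB => ?_
      obtain ⟨h1, h2, h3, h4, h5, h6⟩ := hx
      refine hΦ x.2 x.1 w h5 g hxB h3 h4 w Eqp.rfl fun j hj => h6 j ⟨hj.1, hj.2.1, ?_⟩
      have hnot : ¬ S.Up p a j := by
        intro h
        have : j ∈ ({j | S.Up p a j} : Set V) := h
        rw [hR] at this
        exact this
      have hnpj : ¬ S.Ab p j := fun h => hnot ⟨hj.1, h, hj.2.2⟩
      rcases hpa with e | e
      · rw [e]; exact hj.2.2
      · rcases hj.2.2 with e' | e'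
        · rw [← ha] at e'
          rw [e'] at hnpj; exact absurd e hnpj
        · rcases hS.ch j hj.1 p hp a e' e with q | q | q
          · exact Or.inl q
          · exact Or.inr q
          · exact absurd q hnpj
    obtain ⟨L0, x, hL, hxB, hy⟩ := hlast
    rw [hL] at hun
    rw [AW_append] at hun
    exact hun.2.1 hxB (gain hS hxB hun.1 hy)
  · -- the next node
    obtain ⟨j, hjR, hjmin⟩ : ∃ j, S.Up p a j ∧ ∀ i ∈ S.P, S.Ab p i → ¬ S.Ab i j := by
      obtain ⟨j, hj, hjm⟩ := (measure fun j => {i | i ∈ S.P ∧ S.Ab i j}.ncard).wf.has_min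
        {j | S.Up p a j} (Set.nonempty_iff_ne_empty.2 hR)
      refine ⟨j, hj, fun i hi hpi hij => ?_⟩
      have hia : S.Ab i a := by
        rcases hj.2.2 with e | e
        · rw [← e]; exact hij
        · exact hS.tr _ hi _ hj.1 _ hij e
      refine hjm i ⟨hi, hpi, Or.inr hia⟩ ?_
      show {k | k ∈ S.P ∧ S.Ab k i}.ncard < {k | k ∈ S.P ∧ S.Ab k j}.ncard
      refine Set.ncard_lt_ncard ?_ (hS.fin j)
      refine ⟨fun k hk => ⟨hk.1, hS.tr _ hk.1 _ hi _ hk.2 hij⟩, fun h => ?_⟩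
      exact hS.irr i hi (h (show i ∈ {k | k ∈ S.P ∧ S.Ab k j} from ⟨hi, hij⟩)).2
    obtain ⟨hjP, hpj, hja⟩ := hjR
    have hxj : ∀ x ∈ L, S.Ab x.2 j := by
      intro x hx
      obtain ⟨h1, h2, -⟩ := hltL x hx
      rcases h2 with h2 | h2
      · rw [h2]; exact hpj
      · exact hS.tr _ h1 _ hp _ h2 hpj
    have hxne : ∀ x ∈ L, x.2 ≠ j := by
      intro x hx e
      have h := hxj x hx
      rw [e] at h
      exact hS.irr j hjP h
    by_cases hgood : ∃ v, AW (fun w x => ¬ S.Lo x.1 j (up w j v)) w L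
    · -- extend
      obtain ⟨v, hv⟩ := hgood
      refine ih {i | S.Up j a i}.ncard ?_ (up w j v) g j hjP hja ?_ hlast rfl
      · rw [← hn]
        refine Set.ncard_lt_ncard ?_ hRf
        refine ⟨fun i hi => ⟨hi.1, hS.tr _ hp _ hjP _ hpj hi.2.1, hi.2.2⟩, fun h => ?_⟩
        exact hS.irr j hjP (h (show j ∈ {j | S.Up p a j} from ⟨hjP, hpj, hja⟩)).2.1
      · refine AW_up hxne ?_
        exact (hAW.and hv).mono fun w x _ hx =>
          hx.1.step hS hp hjP hpj hjmin hja (Or.inr rfl) hx.2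
    · -- split
      push Not at hgood
      obtain ⟨v, A, M, b, C, hL, hM, hb, h, T, hhT, hh⟩ :=
        dec (R := fun v w x => S.Lo x.1 j (up w j v)) hgood
      obtain ⟨θ', hθ', hd'⟩ := hh
      obtain ⟨θ'', hθ'', hd''⟩ := hb
      obtain ⟨g', hg1, hg2, hg3⟩ := hS.star j hjP (Φ j) (hΦf j)
      have hML : ∀ x ∈ M, x ∈ L := by
        intro x hx; rw [hL]; simp [hx]
      have hMne : ∀ x ∈ M, x.2 ≠ j := fun x hx => hxne x (hML x hx)
      have hnoUp : ∀ i, ¬ S.Up j j i := by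
        rintro i ⟨h1, h2, h3⟩
        rcases h3 with rfl | h3
        · exact hS.irr _ h1 h2
        · exact hS.irr j hjP (hS.tr _ hjP _ h1 _ h2 h3)
      have hlt : sm ((θ', j) :: (M ++ [(θ'', j)])) < μ := by
        rw [← hμ, hL]
        exact sm_lt hθ'' ⟨h, T, hhT, hθ'⟩
      refine ihμ _ hlt ((θ', j) :: (M ++ [(θ'', j)])) rfl _ (up (en w A) j v) g' j hjP (Or.inr hg2)
        ?_ ⟨(θ', j) :: M, (θ'', j), rfl, hg1, (θ', j), List.mem_cons_self, rfl⟩ rfl
      refine ⟨⟨hjP, Or.inl rfl, hg2, hg3, hd', fun i hi => absurd hi (hnoUp i)⟩, ?_⟩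
      show AW _ (fp j (up (en w A) j v)) _
      rw [fp_up, AW_append]
      have hAWM : AW (Item S Φ a p) (en w A) M := by
        rw [hL, AW_append, AW_append] at hAW
        exact hAW.2.1
      refine ⟨AW_up hMne ?_, ?_, trivial⟩
      · exact (hAWM.and hM).mono fun w x _ hx =>
          hx.1.step hS hp hjP hpj hjmin hja (Or.inl hg2) hx.2
      · rw [en_up hMne]
        exact ⟨hjP, Or.inl rfl, hg2, hg3, hd'', fun i hi => absurd hi (hnoUp i)⟩

/-- One of the two colours is alive. -/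
theorem alive_or (hS : S.Ok) {c : V} (hc : c ∈ S.P) (w : V → Bool) :
    S.Alive c w ∨ S.Alive c (fp c w) := by
  by_contra hcon
  push Not at hcon
  obtain ⟨h0, h1⟩ := hcon
  unfold Alive at h0 h1
  push Not at h0 h1
  obtain ⟨θ0, h0⟩ := h0
  obtain ⟨θ1, h1⟩ := h1
  choose Φ hΦf hΦ using fun c => exists_uniform hS c
  obtain ⟨g, hg1, hg2, hg3⟩ := hS.star c hc (Φ c) (hΦf c)
  have hnoUp : ∀ i, ¬ S.Up c c i := by
    rintro i ⟨e1, e2, e3⟩
    rcases e3 with rfl | e3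
    · exact hS.irr _ e1 e2
    · exact hS.irr c hc (hS.tr _ hc _ e1 _ e2 e3)
  refine no_cfg hS hΦf hΦ _ [(θ0, c), (θ1, c)] rfl _ w g c hc (Or.inr hg2) ?_
    ⟨[(θ0, c)], (θ1, c), rfl, hg1, (θ0, c), List.mem_cons_self, rfl⟩ rfl
  exact ⟨⟨hc, Or.inl rfl, hg2, hg3, h0, fun i hi => absurd hi (hnoUp i)⟩,
    ⟨hc, Or.inl rfl, hg2, hg3, h1, fun i hi => absurd hi (hnoUp i)⟩, trivial⟩

/-- All levels are bounded. -/
lemma exists_bound (S : TS V Γ) : ∃ Θ : Ordinal.{u}, ∀ c w, ¬ S.Lo Θ c w → S.Alive c w := by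
  let f : V × (V → Bool) → Ordinal.{u} := fun x =>
    if h : ∃ θ, S.Dead θ x.1 x.2 then h.choose + 1 else 0
  refine ⟨⨆ x, f x, fun c w h θ hd => h ?_⟩
  have hex : ∃ θ, S.Dead θ c w := ⟨θ, hd⟩
  have e : f (c, w) = hex.choose + 1 := dif_pos hex
  refine ⟨hex.choose, ?_, hex.choose_spec⟩
  have h1 : hex.choose < f (c, w) := by
    rw [e]; exact lt_add_one _
  exact h1.trans_le (Ordinal.le_iSup f (c, w))

/-- Services of an alive node, through alive nodes. -/
lemma Alive.serve {c : V} {w : V → Bool} (h : S.Alive c w) {Φ : Set V} (hΦ : Φ.Finite) :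
    ∃ g, c ∈ S.B g ∧ S.Ab c (S.an g) ∧ (∀ φ ∈ Φ, ¬ S.Cn c φ (S.an g)) ∧ ∃ y, S.Eqp c y w ∧
      (∀ j, S.Up c (S.an g) j → S.Alive j y) ∧ S.Sv y g c := by
  obtain ⟨Θ, hΘ⟩ := exists_bound S
  have h1 := h Θ
  rw [dead_iff] at h1
  push Not at h1
  have h2 := h1 Φ hΦ
  unfold DB at h2
  push Not at h2
  obtain ⟨g, g1, g2, g3, y, g4, g5, g6⟩ := h2
  exact ⟨g, g1, g2, g3, y, g4, fun j hj => hΘ j y (g5 j hj), g6⟩

end TS

end UnfS
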