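import Pool.Agent.Work.MP_1aab6d_tree_helper61.Seq
import Pool.Agent.Work.MP_1aab6d_co_h84.Rank

/-!
# The selection system of a graph
-/

set_option autoImplicit false

universe u

namespace UnfS

open Classical UnfT

variable {V : Type u}

/-- The vertices of `W` and the vertices `v` of `P` with `n < r v`. -/
def Rest (P W : Set V) (r : V → ℕ) (n : ℕ) : Set V := {v | v ∈ W ∨ (v ∈ P ∧ n < r v)}

/-- `a` and `b` are joined by a walk of `H` all of whose vertices lie in `A` (or `a = b`). -/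
def Link (H : SimpleGraph V) (A : Set V) (a b : V) : Prop :=
  Relation.ReflTransGen (fun p q => H.Adj p q ∧ p ∈ A ∧ q ∈ A) a b

lemma Link.symm {H : SimpleGraph V} {A : Set V} {a b : V} (h : Link H A a b) : Link H A b a := by
  unfold Link at h
  induction h with
  | refl => exact Relation.ReflTransGen.refl
  | tail _ hbc ih => exact Relation.ReflTransGen.head ⟨hbc.1.symm, hbc.2.2, hbc.2.1⟩ ih

lemma Link.mono {H : SimpleGraph V} {A B : Set V} (hAB : A ⊆ B) {a b : V} (h : Link H A a b) :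
    Link H B a b := by
  unfold Link at h
  induction h with
  | refl => exact Relation.ReflTransGen.refl
  | tail _ hbc ih => exact Relation.ReflTransGen.tail ih ⟨hbc.1, hAB hbc.2.1, hAB hbc.2.2⟩

lemma Link.trans {H : SimpleGraph V} {A : Set V} {a b c : V} (h : Link H A a b)
    (h' : Link H A b c) : Link H A a c := Relation.ReflTransGen.trans h h'

variable (G H : SimpleGraph V) (P W : Set V) (r : V → ℕ) (z0 : V → Bool)

/-- `z` on `P` and `z0` elsewhere. -/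
noncomputable def ext (z : V → Bool) : V → Bool := fun v => if v ∈ P then z v else z0 v

/-- The petals of a gadget. -/
def Bt : V ⊕ V × V → Set V
  | .inl x => {v | x ∈ W ∧ v ∈ bd G x ∧ v ∈ P}
  | .inr x => {v | (v = x.1 ∨ v = x.2) ∧ x.1 ∈ P ∧ x.2 ∈ P ∧ H.Adj x.1 x.2 ∧ r x.1 < r x.2}

/-- The anchor of a gadget. -/
def At : V ⊕ V × V → V
  | .inl x => x
  | .inr x => x.2

/-- Service. -/
def Vt (z : V → Bool) : V ⊕ V × V → V → Prop
  | .inl x, i => Srv G (ext P z0 z) (comp G x) i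
  | .inr x, _ => z x.1 ≠ z x.2

/-- The selection system of the graph. -/
noncomputable def ts : TS V (V ⊕ V × V) where
  P := P
  Ab := fun i v => v ∈ Rest P W r (r i) ∧ ∃ w ∈ Rest P W r (r i), H.Adj i w ∧
    Link H (Rest P W r (r i)) w v
  Cn := fun c v w => Link H (Rest P W r (r c)) v w
  an := At
  B := Bt G H P W r
  Sv := Vt G P z0

variable {G H P W r z0}

lemma ext_mem {z : V → Bool} {v : V} (h : v ∈ P) : ext P z0 z v = z v := if_pos h

lemma ext_not {z : V → Bool} {v : V} (h : v ∉ P) : ext P z0 z v = z0 v := if_neg h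

lemma ext_fp {z : V → Bool} {i : V} (h : i ∈ P) : ext P z0 (fp i z) = UnfL.fl {i} (ext P z0 z) := by
  funext v
  by_cases hv : v = i
  · subst hv
    rw [ext_mem h, UnfL.fl_mem (Set.mem_singleton v), ext_mem h, fp_eq]
  · rw [UnfL.fl_not (show v ∉ ({i} : Set V) from hv)]
    by_cases hvP : v ∈ P
    · rw [ext_mem hvP, ext_mem hvP, fp_ne _ hv]
    · rw [ext_not hvP, ext_not hvP]

lemma rest_mono {m n : ℕ} (h : m ≤ n) : Rest P W r n ⊆ Rest P W r m := by
  rintro v (hv | hv)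
  · exact Or.inl hv
  · exact Or.inr ⟨hv.1, h.trans_lt hv.2⟩

section

variable (hPI : ∀ v ∈ P, Inf G v) (hW : ∀ x ∈ W, ¬ Inf G x ∧ (comp G x).Finite ∧ comp G x ⊆ W)
  (hH : H ≤ G) (hHW : ∀ a ∈ W, ∀ b, G.Adj a b → H.Adj a b)

include hPI hW in
lemma rest_P {v : V} {n : ℕ} (hv : v ∈ P) (h : v ∈ Rest P W r n) : n < r v := by
  rcases h with h | h
  · exact absurd (hPI v hv) (hW v h).1
  · exact h.2

include hW hHW in
lemma link_comp {x a : V} (hx : x ∈ W) (h : a ∈ comp G x) (n : ℕ) :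
    Link H (Rest P W r n) x a := by
  have h' : Reach G ∅ x a := h
  unfold Reach at h'
  induction h' with
  | refl => exact Relation.ReflTransGen.refl
  | @tail b c hb hbc ih =>
    have hbC : b ∈ comp G x := hb
    have hcC : c ∈ comp G x := h
    have hbW := (hW x hx).2.2 hbC
    exact Relation.ReflTransGen.tail (ih hbC) ⟨hHW b hbW c hbc.1, Or.inl hbW,
      Or.inl ((hW x hx).2.2 hcC)⟩

include hPI hH in
lemma cross {v b : V} {n : ℕ} (h : Link H (Rest P W r n) v b) (hW' : ∀ x ∈ W, ¬ Inf G x) :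
    b ∈ comp G v ∨ ∃ q ∈ bd G v, n < r q := by
  unfold Link at h
  induction h with
  | refl => exact Or.inl (mem_comp_self v)
  | @tail b c hb hbc ih =>
    rcases ih with ih | ih
    · rcases hbc.2.2 with hc | hc
      · exact Or.inl (Relation.ReflTransGen.tail ih ⟨hH hbc.1, hW' c hc, Set.notMem_empty _⟩)
      · exact Or.inr ⟨c, ⟨hPI c hc.1, b, ih, hH hbc.1⟩, hc.2⟩
    · exact Or.inr ih

include hPI hW hH hHW in
/-- The axioms hold. -/
theorem ts_ok (hr : Set.InjOn r P)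
    (hN : ∀ c ∈ P, ∃ N : Set V, N.Infinite ∧ (∀ v ∈ N, H.Adj c v ∧ v ∈ Rest P W r (r c)) ∧
      ∀ a ∈ N, ∀ b ∈ N, a ≠ b → ¬ Link H (Rest P W r (r c)) a b) :
    (ts G H P W r z0).Ok := by
  have finr : ∀ m : ℕ, {i | i ∈ P ∧ r i ≤ m}.Finite := by
    intro m
    refine Set.Finite.of_finite_image (f := r) ((Set.finite_Iic m).subset ?_) (hr.mono fun i hi => hi.1)
    rintro _ ⟨i, hi, rfl⟩
    exact hi.2
  have htr : ∀ i ∈ P, ∀ j ∈ P, ∀ v, (ts G H P W r z0).Ab i j → (ts G H P W r z0).Ab j v →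
      r i < r j ∧ Link H (Rest P W r (r i)) j v ∧ v ∈ Rest P W r (r i) := by
    rintro i hi j hj v ⟨h1, w, h2, h3, h4⟩ ⟨g1, w', g2, g3, g4⟩
    have hij := rest_P (r := r) hPI hW hj h1
    refine ⟨hij, ?_, rest_mono hij.le g1⟩
    refine Relation.ReflTransGen.head ⟨g3, h1, rest_mono hij.le g2⟩ ?_
    exact g4.mono (rest_mono hij.le)
  refine ⟨?_, ?_, ?_, ?_, ?_, ?_, ?_, ?_, ?_, ?_, ?_, ?_, ?_⟩
  · rintro i hi ⟨h, -⟩
    exact lt_irrefl _ (rest_P (r := r) hPI hW hi h)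
  · rintro i hi j hj v h1 h2
    obtain ⟨g1, g2, g3⟩ := htr i hi j hj v h1 h2
    obtain ⟨e1, w, e2, e3, e4⟩ := h1
    exact ⟨g3, w, e2, e3, e4.trans g2⟩
  · -- chain
    have aux : ∀ i ∈ P, ∀ j ∈ P, ∀ v, (ts G H P W r z0).Ab i v → (ts G H P W r z0).Ab j v →
        r i < r j → (ts G H P W r z0).Ab i j := by
      rintro i hi j hj v ⟨h1, w, h2, h3, h4⟩ ⟨g1, w', g2, g3, g4⟩ hij
      have hjR : j ∈ Rest P W r (r i) := Or.inr ⟨hj, hij⟩
      refine ⟨hjR, w, h2, h3, h4.trans ?_⟩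
      refine Link.symm ?_
      refine Relation.ReflTransGen.head ⟨g3, hjR, rest_mono hij.le g2⟩ ?_
      exact g4.mono (rest_mono hij.le)
    intro i hi j hj v h1 h2
    rcases lt_trichotomy (r i) (r j) with h | h | h
    · exact Or.inr (Or.inl (aux i hi j hj v h1 h2 h))
    · exact Or.inl (hr hi hj h)
    · exact Or.inr (Or.inr (aux j hj i hi v h2 h1 h))
  · -- finiteness
    intro v
    by_cases hvW : v ∈ W
    · obtain ⟨h1, h2, h3⟩ := hW v hvW
      obtain ⟨m, hm⟩ := ((bd_finite h1 h2).image r).bddAbove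
      refine (finr m).subset ?_
      rintro i ⟨hi, hv, w, hw, hiw, hl⟩
      refine ⟨hi, ?_⟩
      rcases cross hPI hH hl.symm (fun x hx => (hW x hx).1) with h | ⟨q, hq, hq'⟩
      · exact hm ⟨i, ⟨hPI i hi, w, h, (hH hiw).symm⟩, rfl⟩
      · exact hq'.le.trans (hm ⟨q, hq, rfl⟩)
    · refine (finr (r v)).subset ?_
      rintro i ⟨hi, hv, -⟩
      rcases hv with hv | hv
      · exact absurd hv hvW
      · exact ⟨hi, hv.2.le⟩
  · intro c v; exact Relation.ReflTransGen.refl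
  · intro c v w h; exact Link.symm h
  · intro c u v w h1 h2; exact Link.trans h1 h2
  · intro c hc j hj v h1 h2
    exact (htr c hc j hj v h1 h2).2.1
  · rintro (x | x) v hv
    · exact hv.2.2
    · obtain ⟨h1 | h1, h2, h3, -⟩ := hv
      · rw [h1]; exact h2
      · rw [h1]; exact h3
  · rintro (x | x) i hi
    · obtain ⟨hx, ⟨hiI, a, ha, hai⟩, hiP⟩ := hi
      right
      have haW := (hW x hx).2.2 ha
      exact ⟨Or.inl hx, a, Or.inl haW, (hHW a haW i hai).symm, (link_comp hW hHW hx ha _).symm⟩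
    · obtain ⟨h1 | h1, h2, h3, h4, h5⟩ := hi
      · right
        show x.2 ∈ Rest P W r (r i) ∧ ∃ w ∈ Rest P W r (r i), H.Adj i w ∧
          Link H (Rest P W r (r i)) w x.2
        rw [h1]
        exact ⟨Or.inr ⟨h3, h5⟩, x.2, Or.inr ⟨h3, h5⟩, h4, Relation.ReflTransGen.refl⟩
      · exact Or.inl h1
  · rintro (x | x) z z' hz j hj h
    · obtain ⟨hx, hjb, hjP⟩ := hj
      refine srv_congr hjb (fun v hv => ?_) h
      by_cases hvP : v ∈ P
      · rw [ext_mem hvP, ext_mem hvP]; exact hz v ⟨hx, hv, hvP⟩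
      · rw [ext_not hvP, ext_not hvP]
    · obtain ⟨-, h2, h3, h4, h5⟩ := hj
      have e1 := hz x.1 ⟨Or.inl rfl, h2, h3, h4, h5⟩
      have e2 := hz x.2 ⟨Or.inr rfl, h2, h3, h4, h5⟩
      show z' x.1 ≠ z' x.2
      rw [← e1, ← e2]; exact h
  · rintro (x | x) z i hi hni j hj h
    · obtain ⟨hx, hib, hiP⟩ := hi
      obtain ⟨-, hjb, hjP⟩ := hj
      show Srv G (ext P z0 (fp i z)) (comp G x) j
      rw [ext_fp hiP]
      refine srv_fl (hW x hx).1 ?_ hjb ?_
      · rintro k hk -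
        rw [Set.mem_singleton_iff] at hk
        rw [hk]; exact hni
      · rcases h with h | h
        · exact Or.inl h
        · exact Or.inr h
    · obtain ⟨h1, h2, h3, h4, h5⟩ := hi
      have hne : x.1 ≠ x.2 := h4.ne
      have he : z x.1 = z x.2 := by
        by_contra hcon; exact hni hcon
      show fp i z x.1 ≠ fp i z x.2
      rcases h1 with rfl | h1
      · rw [fp_eq, fp_ne _ hne.symm, he]; simp
      · rw [h1, fp_eq, fp_ne _ hne, he]; simp
  · intro c hc Φ hΦ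
    obtain ⟨N, hN1, hN2, hN3⟩ := hN c hc
    have hbad : (⋃ φ ∈ Φ, {n | n ∈ N ∧ Link H (Rest P W r (r c)) φ n}).Finite := by
      refine hΦ.biUnion fun φ _ => Set.Subsingleton.finite ?_
      rintro a ⟨ha, ha'⟩ b ⟨hb, hb'⟩
      by_contra hab
      exact hN3 a ha b hb hab (ha'.symm.trans hb')
    obtain ⟨n, hn1, hn2⟩ := (hN1.sdiff hbad).nonempty
    obtain ⟨hcn, hnR⟩ := hN2 n hn1
    have hgen : ∀ φ ∈ Φ, ¬ Link H (Rest P W r (r c)) φ n :=
      fun φ hφ h => hn2 (Set.mem_biUnion hφ ⟨hn1, h⟩)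
    rcases hnR with hnW | ⟨hnP, hlt⟩
    · refine ⟨.inl n, ⟨hnW, ⟨hPI c hc, n, mem_comp_self n, (hH hcn).symm⟩, hc⟩, ?_, hgen⟩
      exact ⟨Or.inl hnW, n, Or.inl hnW, hcn, Relation.ReflTransGen.refl⟩
    · refine ⟨.inr (c, n), ⟨Or.inl rfl, hc, hnP, hcn, hlt⟩, ?_, hgen⟩
      exact ⟨Or.inr ⟨hnP, hlt⟩, n, Or.inr ⟨hnP, hlt⟩, hcn, Relation.ReflTransGen.refl⟩

include hPI hW hH hHW in
/-- The colouring of `P`. -/
theorem exists_SH [Countable V] (hr : Set.InjOn r P)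
    (hN : ∀ c ∈ P, ∃ N : Set V, N.Infinite ∧ (∀ v ∈ N, H.Adj c v ∧ v ∈ Rest P W r (r c)) ∧
      ∀ a ∈ N, ∀ b ∈ N, a ≠ b → ¬ Link H (Rest P W r (r c)) a b) (z0 : V → Bool) :
    ∃ z : V → Bool, (∀ v, v ∉ P → z v = z0 v) ∧ ∀ c ∈ P, SH G z c := by
  obtain ⟨z, hz⟩ := TS.select (ts_ok (z0 := z0) hPI hW hH hHW hr hN)
  refine ⟨ext P z0 z, fun v hv => ext_not hv, fun c hc hfin => ?_⟩
  obtain ⟨g, hg1, hg2, hg3, hg4⟩ := hz c hc _ hfin
  rcases g with x | x
  · obtain ⟨hx, hcb, -⟩ := hg1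
    obtain ⟨s, hs1, hs2, y, hy, hcy, hsy⟩ : Srv G (ext P z0 z) (comp G x) c := hg4
    obtain ⟨w1, w2, w3⟩ := hW x hx
    refine hg3 y ⟨hcy, Or.inr ⟨comp_not_inf w1 hy, ?_, s, ?_, ?_, hsy⟩⟩ ?_
    · rw [comp_eq w1 hy]; exact w2
    · intro v hv
      rw [comp_eq w1 hy] at hv
      exact hs1 v hv
    · intro v hv
      rw [comp_eq w1 hy] at hv
      exact hs2 v hv
    · exact (link_comp hW hHW hx hy _).symm
  · obtain ⟨h1, h2, h3, h4, h5⟩ := hg1
    have hc1 : c = x.1 := by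
      rcases h1 with h1 | h1
      · exact h1
      · exfalso
        have : x.2 ∈ Rest P W r (r c) := hg2.1
        rw [h1] at this
        exact lt_irrefl _ (rest_P (r := r) hPI hW h3 this)
    have hne : z x.1 ≠ z x.2 := hg4
    refine hg3 x.2 ⟨?_, Or.inl ⟨hPI _ h3, ?_⟩⟩ Relation.ReflTransGen.refl
    · rw [hc1]; exact hH h4
    · rw [hc1, ext_mem h2, ext_mem h3]; exact hne.symm

end

end UnfS
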