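import Pool.Agent.Work.MP_1aab6d_tree_helper61.Graph

/-!
# The theorem
-/

set_option autoImplicit false

universe u

namespace UnfS

open Classical UnfT

variable {V : Type u}

/-- The limit of a sequence of finite stages. -/
lemma fuse {T : Type*} [Countable T] (St : Set V × (V → Bool) → Prop) {s0 : Set V × (V → Bool)}
    (h0 : St s0) (Gd : T → Set V × (V → Bool) → Prop)
    (hstep : ∀ s, St s → ∀ t, ∃ s', St s' ∧ TS.Ext s s' ∧ Gd t s') :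
    ∃ z : V → Bool, ∀ t, ∃ s, Gd t s ∧ ∀ v ∈ s.1, z v = s.2 v := by
  rcases isEmpty_or_nonempty T with hT | hT
  · exact ⟨fun _ => false, fun t => (hT.false t).elim⟩
  obtain ⟨f, hf⟩ := exists_surjective_nat T
  have hst : ∀ (s : Set V × (V → Bool)) (t : T), ∃ s', St s → St s' ∧ TS.Ext s s' ∧ Gd t s' := by
    intro s t
    by_cases hs : St s
    · obtain ⟨s', h⟩ := hstep s hs t
      exact ⟨s', fun _ => h⟩
    · exact ⟨s, fun h => absurd h hs⟩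
  choose N hN using hst
  let σ : ℕ → Set V × (V → Bool) := fun n => Nat.rec s0 (fun n s => N s (f n)) n
  have hσ : ∀ n, St (σ n) := by
    intro n
    induction n with
    | zero => exact h0
    | succ n ih => exact (hN (σ n) (f n) ih).1
  have hext1 : ∀ n, TS.Ext (σ n) (σ (n + 1)) := fun n => (hN (σ n) (f n) (hσ n)).2.1
  have hext : ∀ n m, n ≤ m → TS.Ext (σ n) (σ m) := by
    intro n m h
    induction m, h using Nat.le_induction with
    | base => exact TS.Ext.rfl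
    | succ m _ ih => exact ih.trans (hext1 m)
  let z : V → Bool := fun v => if h : ∃ n, v ∈ (σ n).1 then (σ h.choose).2 v else false
  have hz : ∀ n, ∀ v ∈ (σ n).1, z v = (σ n).2 v := by
    intro n v hv
    have h : ∃ n, v ∈ (σ n).1 := ⟨n, hv⟩
    have e : z v = (σ h.choose).2 v := dif_pos h
    rw [e]
    rcases le_total n h.choose with h1 | h1
    · exact (hext _ _ h1).2 v hv
    · exact ((hext _ _ h1).2 v h.choose_spec).symm
  refine ⟨z, fun t => ?_⟩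
  obtain ⟨n, rfl⟩ := hf t
  exact ⟨σ (n + 1), (hN (σ n) (f n) (hσ n)).2.2, hz (n + 1)⟩

variable {G : SimpleGraph V}

/-- If each vertex of `R` has infinitely many neighbours in `R`, then `R` can be coloured such that
each vertex of `R` has infinitely many neighbours in `R` of the other colour. -/
lemma exists_rich [Countable V] {R : Set V} (hR : ∀ v ∈ R, {y | G.Adj v y ∧ y ∈ R}.Infinite) :
    ∃ c : V → Bool, ∀ v ∈ R, {y | G.Adj v y ∧ y ∈ R ∧ c y ≠ c v}.Infinite := by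
  obtain ⟨c, hc⟩ := fuse (T := R × Finset V) (fun s => s.1.Finite) (s0 := (∅, fun _ => false))
    Set.finite_empty (fun t s => ∃ y, G.Adj t.1 y ∧ y ∈ R ∧ y ∉ t.2 ∧ (t.1 : V) ∈ s.1 ∧ y ∈ s.1 ∧
      s.2 y ≠ s.2 t.1) (by
    rintro ⟨D, z⟩ hD ⟨⟨v, hv⟩, Ψ⟩
    have hfin : (D ∪ (insert v (Ψ : Set V))).Finite := hD.union (Ψ.finite_toSet.insert v)
    obtain ⟨y, ⟨hy1, hy2⟩, hy3⟩ := ((hR v hv).sdiff hfin).nonempty
    have hyD : y ∉ D := fun h => hy3 (Or.inl h)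
    have hyv : v ≠ y := fun h => hy3 (Or.inr (Or.inl h.symm))
    have hyΨ : y ∉ Ψ := fun h => hy3 (Or.inr (Or.inr h))
    refine ⟨(insert v (insert y D), up z y (!(z v))), (hD.insert y).insert v, ⟨?_, ?_⟩, y, hy1, hy2,
      hyΨ, Or.inl rfl, Or.inr (Or.inl rfl), ?_⟩
    · exact fun w hw => Or.inr (Or.inr hw)
    · intro w hw
      exact up_ne _ _ fun e => hyD (by rw [← e]; exact hw)
    · show up z y (!(z v)) y ≠ up z y (!(z v)) v
      rw [up_eq, up_ne _ _ hyv]; simp)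
  refine ⟨c, fun v hv hfin => ?_⟩
  obtain ⟨s, ⟨y, h1, h2, h3, h4, h5, h6⟩, hs⟩ := hc (⟨v, hv⟩, hfin.toFinset)
  refine h3 (hfin.mem_toFinset.2 ⟨h1, h2, ?_⟩)
  rw [hs y h5, hs v h4]; exact h6

lemma SH.of_inf {z : V → Bool} {v : V} (h : {y | G.Adj v y ∧ Inf G y ∧ z y ≠ z v}.Infinite) :
    SH G z v := h.mono fun _ hy => ⟨hy.1, Or.inl hy.2⟩

/-- Nothing can be added to a maximal secured set. -/
lemma absorb {S : Set V} {τ : V → Bool} (h : Sc G S τ)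
    (hM : ∀ S' τ', Sc G S' τ' → S ⊆ S' → (∀ v ∈ S, τ' v = τ v) → S' ⊆ S) {R : Set V}
    (hRI : ∀ v ∈ R, Inf G v) {ρ : V → Bool}
    (hR : ∀ z : V → Bool, (∀ v ∈ S, z v = τ v) → (∀ v ∈ R, v ∉ S → z v = ρ v) →
      ∀ u ∈ R, u ∉ S → SH G z u) : R ⊆ S := by
  let τ' : V → Bool := fun v => if v ∈ S then τ v else ρ v
  have t1 : ∀ v ∈ S, τ' v = τ v := fun v hv => if_pos hv
  have t2 : ∀ v, v ∉ S → τ' v = ρ v := fun v hv => if_neg hv
  refine (Set.subset_union_right).trans (hM (S ∪ R) τ' ⟨?_, ?_⟩ Set.subset_union_left t1)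
  · rintro v (hv | hv)
    · exact h.1 v hv
    · exact hRI v hv
  · intro z hz w hw
    have e1 : ∀ v ∈ S, z v = τ v := fun v hv => (hz v (Or.inl hv)).trans (t1 v hv)
    by_cases hwS : w ∈ S
    · exact h.2 z e1 w hwS
    · exact hR z e1 (fun v hv hvS => (hz v (Or.inr hv)).trans (t2 v hvS)) w
        (hw.resolve_left hwS) hwS

/-- A vertex outside a maximal secured set has finitely many neighbours in it. -/
lemma few_nbr {S : Set V} {τ : V → Bool} (h : Sc G S τ)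
    (hM : ∀ S' τ', Sc G S' τ' → S ⊆ S' → (∀ v ∈ S, τ' v = τ v) → S' ⊆ S) {v : V} (hv : Inf G v)
    (hvS : v ∉ S) : {y | G.Adj v y ∧ y ∈ S}.Finite := by
  by_contra hinf
  have hb : ∃ b : Bool, {y | G.Adj v y ∧ y ∈ S ∧ τ y = b}.Infinite := by
    by_contra hcon
    push Not at hcon
    refine hinf (((hcon true).union (hcon false)).subset ?_)
    rintro y ⟨h1, h2⟩
    cases hy : τ y
    · exact Or.inr ⟨h1, h2, hy⟩
    · exact Or.inl ⟨h1, h2, hy⟩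
  obtain ⟨b, hb⟩ := hb
  refine hvS (absorb h hM (R := {v}) (ρ := fun _ => !b) ?_ ?_ (Set.mem_singleton v))
  · rintro w rfl; exact hv
  · rintro z hz1 hz2 w rfl hw
    refine SH.of_inf (hb.mono ?_)
    rintro y ⟨h1, h2, h3⟩
    refine ⟨h1, h.1 y h2, ?_⟩
    rw [hz1 y h2, hz2 _ (Set.mem_singleton _) hw, h3]
    simp

/-- The main theorem. -/
theorem main [Countable V] (G H : SimpleGraph V) (X Q W : Set V) (r : V → ℕ) (hX : X.Finite)
    (hQ : ∀ q ∈ Q, Inf G q ∧ (Free G q ∨ {y | G.Adj q y ∧ y ∈ Q}.Infinite))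
    (hW : ∀ x ∈ W, ¬ Inf G x ∧ (comp G x).Finite ∧ comp G x ⊆ W)
    (hH : H ≤ G) (hHW : ∀ a ∈ W, ∀ b, G.Adj a b → H.Adj a b)
    (hr : Set.InjOn r {v | Inf G v ∧ v ∉ X ∧ v ∉ Q})
    (hN : ∀ v, Inf G v → v ∉ X → v ∉ Q → ∃ N : Set V, N.Infinite ∧
      (∀ y ∈ N, H.Adj v y ∧ y ∈ Rest {v | Inf G v ∧ v ∉ X ∧ v ∉ Q} W r (r v)) ∧
      ∀ a ∈ N, ∀ b ∈ N, a ≠ b → ¬ Link H (Rest {v | Inf G v ∧ v ∉ X ∧ v ∉ Q} W r (r v)) a b) :
    ∃ c : V → Bool, Unfriendly G c := by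
  obtain ⟨S, τ, hS, hM⟩ := exists_Sc G
  have hQS : Q ⊆ S := by
    have hQ' : ∀ v ∈ Q \ S, {y | G.Adj v y ∧ y ∈ Q \ S}.Infinite := by
      rintro v ⟨hvQ, hvS⟩
      obtain ⟨h1, h2⟩ := hQ v hvQ
      rcases h2 with h2 | h2
      · exact absurd (mem_of_free hS hM h2) hvS
      · refine (h2.sdiff (few_nbr hS hM h1 hvS)).mono ?_
        rintro y ⟨⟨e1, e2⟩, e3⟩
        exact ⟨e1, e2, fun hyS => e3 ⟨e1, hyS⟩⟩
    obtain ⟨ρ, hρ⟩ := exists_rich hQ'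
    refine absorb hS hM (ρ := ρ) (fun v hv => (hQ v hv).1) ?_
    intro z hz1 hz2 w hw hwS
    refine SH.of_inf ((hρ w ⟨hw, hwS⟩).mono ?_)
    rintro y ⟨h1, h2, h3⟩
    refine ⟨h1, (hQ y h2.1).1, ?_⟩
    rw [hz2 y h2.1 h2.2, hz2 w hw hwS]; exact h3
  set P : Set V := {v | Inf G v ∧ v ∉ X ∧ v ∉ S} with hP
  set P0 : Set V := {v | Inf G v ∧ v ∉ X ∧ v ∉ Q} with hP0
  have hPP : P ⊆ P0 := fun v hv => ⟨hv.1, hv.2.1, fun h => hv.2.2 (hQS h)⟩
  have hsub : ∀ n, Rest P W r n ⊆ Rest P0 W r n := by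
    rintro n v (hv | hv)
    · exact Or.inl hv
    · exact Or.inr ⟨hPP hv.1, hv.2⟩
  obtain ⟨z, hz0, hz⟩ := exists_SH (G := G) (H := H) (P := P) (W := W) (r := r)
    (fun v hv => hv.1) hW hH hHW (hr.mono hPP) (fun c hc => by
    obtain ⟨N, h1, h2, h3⟩ := hN c hc.1 hc.2.1 (hPP hc).2.2
    refine ⟨N \ {y | G.Adj c y ∧ (y ∈ S ∨ y ∈ X)}, ?_, ?_, ?_⟩
    · refine h1.sdiff (((few_nbr hS hM hc.1 hc.2.2).union hX).subset ?_)
      rintro y ⟨e1, e2 | e2⟩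
      · exact Or.inl ⟨e1, e2⟩
      · exact Or.inr e2
    · rintro y ⟨hy, hy'⟩
      obtain ⟨e1, e2⟩ := h2 y hy
      refine ⟨e1, ?_⟩
      rcases e2 with e2 | e2
      · exact Or.inl e2
      · exact Or.inr ⟨⟨e2.1.1, e2.1.2.1, fun hyS => hy' ⟨hH e1, Or.inl hyS⟩⟩, e2.2⟩
    · rintro a ⟨ha, -⟩ b ⟨hb, -⟩ hab hl
      exact h3 a ha b hb hab (hl.mono (hsub _))) τ
  refine unfriendly_of_SH (z := z) (hX.subset ?_)
  rintro v ⟨hv, hns⟩
  by_contra hvX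
  apply hns
  by_cases hvS : v ∈ S
  · exact hS.2 z (fun w hw => hz0 w fun h => h.2.2 hw) v hvS
  · exact hz v ⟨hv, hvX, hvS⟩

end UnfS
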