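import Pool.Agent.Work.MP_1aab6d_tree_helper61.Cfg

/-!
# The construction
-/

set_option autoImplicit false

universe u

namespace UnfS

open Ordinal Classical

namespace TS

variable {V Γ : Type u} {S : TS V Γ}

/-- A finite stage: alive colours on the finite down-closed set `D`. -/
def Stage (S : TS V Γ) (s : Set V × (V → Bool)) : Prop :=
  s.1.Finite ∧ s.1 ⊆ S.P ∧ (∀ d ∈ s.1, ∀ i ∈ S.P, S.Ab i d → i ∈ s.1) ∧ ∀ d ∈ s.1, S.Alive d s.2

/-- Extension of stages. -/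
def Ext (s t : Set V × (V → Bool)) : Prop := s.1 ⊆ t.1 ∧ ∀ v ∈ s.1, t.2 v = s.2 v

lemma Ext.trans {s t r : Set V × (V → Bool)} (h : Ext s t) (h' : Ext t r) : Ext s r :=
  ⟨h.1.trans h'.1, fun v hv => (h'.2 v (h.1 hv)).trans (h.2 v hv)⟩

lemma Ext.rfl {s : Set V × (V → Bool)} : Ext s s := ⟨Set.Subset.refl _, fun _ _ => Eq.refl _⟩

/-- Adding one node above decided ones. -/
lemma add_one (hS : S.Ok) {s : Set V × (V → Bool)} (hs : S.Stage s) {c : V} (hc : c ∈ S.P)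
    (hb : ∀ i ∈ S.P, S.Ab i c → i ∈ s.1) : ∃ t, S.Stage t ∧ Ext s t ∧ c ∈ t.1 := by
  by_cases hcs : c ∈ s.1
  · exact ⟨s, hs, Ext.rfl, hcs⟩
  obtain ⟨h1, h2, h3, h4⟩ := hs
  obtain ⟨z, hz, hzs⟩ : ∃ z : V → Bool, S.Alive c z ∧ ∀ v ∈ s.1, z v = s.2 v := by
    rcases alive_or hS hc s.2 with h | h
    · exact ⟨s.2, h, fun _ _ => rfl⟩
    · exact ⟨_, h, fun v hv => fp_ne _ fun e => hcs (by rw [← e]; exact hv)⟩
  refine ⟨(insert c s.1, z), ⟨h1.insert c, ?_, ?_, ?_⟩, ⟨Set.subset_insert _ _, hzs⟩,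
    Set.mem_insert _ _⟩
  · rintro v (rfl | hv)
    · exact hc
    · exact h2 hv
  · rintro d (rfl | hd) i hi hid
    · exact Or.inr (hb i hi hid)
    · exact Or.inr (h3 d hd i hi hid)
  · rintro d (rfl | hd)
    · exact hz
    · refine (h4 d hd).congr fun i hi => (hzs i ?_).symm
      rcases hi with rfl | hi
      · exact hd
      · exact h3 d hd i hi.1 hi.2

/-- Adding a node. -/
lemma add_all (hS : S.Ok) (n : ℕ) : ∀ c ∈ S.P, {i | i ∈ S.P ∧ S.Ab i c}.ncard = n →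
    ∀ s, S.Stage s → ∃ t, S.Stage t ∧ Ext s t ∧ c ∈ t.1 := by
  induction n using Nat.strong_induction_on with
  | _ n ih =>
  intro c hc hn s hs
  have key : ∀ T : Set V, T ⊆ {i | i ∈ S.P ∧ S.Ab i c} → T.Finite →
      ∃ t, S.Stage t ∧ Ext s t ∧ T ⊆ t.1 := by
    intro T hT hf
    induction T, hf using Set.Finite.induction_on with
    | empty => exact ⟨s, hs, Ext.rfl, Set.empty_subset _⟩
    | @insert i T' hi _ ih' =>
      obtain ⟨t, ht1, ht2, ht3⟩ := ih' ((Set.subset_insert _ _).trans hT)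
      have hi' : i ∈ S.P ∧ S.Ab i c := hT (Set.mem_insert _ _)
      obtain ⟨t', h1, h2, h3⟩ := ih ({j | j ∈ S.P ∧ S.Ab j i}.ncard) (by
        rw [← hn]
        refine Set.ncard_lt_ncard ?_ (hS.fin c)
        refine ⟨fun k hk => ⟨hk.1, hS.tr _ hk.1 _ hi'.1 _ hk.2 hi'.2⟩, fun h => ?_⟩
        exact hS.irr i hi'.1 (h hi').2) i hi'.1 rfl t ht1
      refine ⟨t', h1, ht2.trans h2, ?_⟩
      rintro v (rfl | hv)
      · exact h3
      · exact h2.1 (ht3 hv)
  obtain ⟨t, ht1, ht2, ht3⟩ := key _ (Set.Subset.refl _) (hS.fin c)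
  obtain ⟨t', h1, h2, h3⟩ := add_one hS ht1 hc fun i hi hic => ht3 ⟨hi, hic⟩
  exact ⟨t', h1, ht2.trans h2, h3⟩

/-- One step of the construction. -/
lemma step (hS : S.Ok) {s : Set V × (V → Bool)} (hs : S.Stage s) {c : V} (hc : c ∈ S.P)
    {Ψ : Set V} (hΨ : Ψ.Finite) : ∃ t, S.Stage t ∧ Ext s t ∧ ∃ g, c ∈ S.B g ∧
      S.Ab c (S.an g) ∧ (∀ φ ∈ Ψ, ¬ S.Cn c φ (S.an g)) ∧ S.B g ⊆ t.1 ∧ S.Sv t.2 g c := by
  obtain ⟨⟨D, z⟩, hD, hsD, hcD⟩ := add_all hS _ c hc rfl s hs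
  obtain ⟨h1, h2, h3, h4⟩ := hD
  dsimp only at h1 h2 h3 h4 hcD
  obtain ⟨g, g1, g2, g3, y, g4, g5, g6⟩ := (h4 c hcD).serve (h1.union hΨ)
  set U : Set V := {j | S.Up c (S.an g) j} with hU
  have hUf : U.Finite := by
    refine ((hS.fin (S.an g)).insert (S.an g)).subset fun j hj => ?_
    rcases hj.2.2 with h | h
    · exact Or.inl h
    · exact Or.inr ⟨hj.1, h⟩
  have hUD : ∀ j ∈ U, j ∉ D := by
    rintro j ⟨e1, e2, e3⟩ hjD
    refine g3 j (Or.inl hjD) ?_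
    rcases e3 with e | e
    · rw [e]; exact hS.crefl _ _
    · exact hS.cone _ hc _ e1 _ e2 e
  let z' : V → Bool := fun v => if v ∈ U then y v else z v
  have zU : ∀ v ∈ U, z' v = y v := fun v hv => if_pos hv
  have zD : ∀ v, v ∉ U → z' v = z v := fun v hv => if_neg hv
  have zD' : ∀ v ∈ D, z' v = z v := fun v hv => zD v fun h => hUD v h hv
  have zc : ∀ v, (v = c ∨ (v ∈ S.P ∧ S.Ab v c)) → z' v = y v := by
    intro v hv
    rw [zD', g4 v hv]
    rcases hv with rfl | hv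
    · exact hcD
    · exact h3 c hcD v hv.1 hv.2
  -- the nodes below a node of `U`
  have hbel : ∀ j ∈ U, ∀ i ∈ S.P, S.Ab i j → i ∈ U ∨ i = c ∨ S.Ab i c := by
    rintro j ⟨e1, e2, e3⟩ i hi hij
    rcases hS.ch i hi c hc j hij e2 with q | q | q
    · exact Or.inr (Or.inl q)
    · exact Or.inr (Or.inr q)
    · refine Or.inl ⟨hi, q, Or.inr ?_⟩
      rcases e3 with e | e
      · rw [← e]; exact hij
      · exact hS.tr _ hi _ e1 _ hij e
  have hBg : ∀ i ∈ S.B g, i ∈ U ∨ i = c ∨ S.Ab i c := by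
    intro i hi
    have hiP := hS.BP g hi
    rcases hS.Ban g i hi with e | e
    · left
      exact ⟨hiP, by rw [e]; exact g2, Or.inl e⟩
    · rcases hS.ch i hiP c hc _ e g2 with q | q | q
      · exact Or.inr (Or.inl q)
      · exact Or.inr (Or.inr q)
      · exact Or.inl ⟨hiP, q, Or.inr e⟩
  refine ⟨(D ∪ U, z'), ⟨h1.union hUf, ?_, ?_, ?_⟩, ⟨?_, ?_⟩, g, g1, g2,
    fun φ hφ => g3 φ (Or.inr hφ), ?_, ?_⟩
  · rintro v (hv | hv)
    · exact h2 hv
    · exact hv.1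
  · rintro d (hd | hd) i hi hid
    · exact Or.inl (h3 d hd i hi hid)
    · rcases hbel d hd i hi hid with q | q | q
      · exact Or.inr q
      · rw [q]; exact Or.inl hcD
      · exact Or.inl (h3 c hcD i hi q)
  · rintro d (hd | hd)
    · refine (h4 d hd).congr fun i hi => (zD' i ?_).symm
      rcases hi with rfl | hi
      · exact hd
      · exact h3 d hd i hi.1 hi.2
    · refine (g5 d hd).congr fun i hi => ?_
      rcases hi with rfl | hi
      · exact (zU _ hd).symm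
      · rcases hbel d hd i hi.1 hi.2 with q | q | q
        · exact (zU _ q).symm
        · exact (zc i (Or.inl q)).symm
        · exact (zc i (Or.inr ⟨hi.1, q⟩)).symm
  · exact hsD.1.trans Set.subset_union_left
  · intro v hv
    exact (zD' v (hsD.1 hv)).trans (hsD.2 v hv)
  · intro i hi
    rcases hBg i hi with q | q | q
    · exact Or.inr q
    · rw [q]; exact Or.inl hcD
    · exact Or.inl (h3 c hcD i (hS.BP g hi) q)
  · refine hS.loc g y z' (fun i hi => ?_) c g1 g6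
    rcases hBg i hi with q | q | q
    · exact (zU _ q).symm
    · exact (zc i (Or.inl q)).symm
    · exact (zc i (Or.inr ⟨hS.BP g hi, q⟩)).symm

/-- The selection theorem. -/
theorem select [Countable V] (hS : S.Ok) : ∃ z : V → Bool, ∀ c ∈ S.P, ∀ Ψ : Set V, Ψ.Finite →
    ∃ g, c ∈ S.B g ∧ S.Ab c (S.an g) ∧ (∀ φ ∈ Ψ, ¬ S.Cn c φ (S.an g)) ∧ S.Sv z g c := by
  rcases isEmpty_or_nonempty V with hV | hV
  · exact ⟨fun _ => false, fun c => (hV.false c).elim⟩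
  obtain ⟨f, hf⟩ := exists_surjective_nat (V × Finset V)
  have hstep : ∀ (s : Set V × (V → Bool)) (x : V × Finset V), ∃ t, S.Stage s → S.Stage t ∧
      Ext s t ∧ (x.1 ∈ S.P → ∃ g, x.1 ∈ S.B g ∧ S.Ab x.1 (S.an g) ∧
        (∀ φ ∈ x.2, ¬ S.Cn x.1 φ (S.an g)) ∧ S.B g ⊆ t.1 ∧ S.Sv t.2 g x.1) := by
    intro s x
    by_cases hs : S.Stage s
    · by_cases hx : x.1 ∈ S.P
      · obtain ⟨t, h1, h2, g, h3, h4, h5, h6, h7⟩ := step hS hs hx x.2.finite_toSet
        exact ⟨t, fun _ => ⟨h1, h2, fun _ => ⟨g, h3, h4, fun φ hφ => h5 φ hφ, h6, h7⟩⟩⟩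
      · exact ⟨s, fun _ => ⟨hs, Ext.rfl, fun h => absurd h hx⟩⟩
    · exact ⟨s, fun h => absurd h hs⟩
  choose N hN using hstep
  let σ : ℕ → Set V × (V → Bool) := fun n => Nat.rec (∅, fun _ => false) (fun n s => N s (f n)) n
  have hσ : ∀ n, S.Stage (σ n) := by
    intro n
    induction n with
    | zero =>
      refine ⟨Set.finite_empty, Set.empty_subset _, ?_, ?_⟩
      · intro d hd; exact absurd hd (Set.notMem_empty _)
      · intro d hd; exact absurd hd (Set.notMem_empty _)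
    | succ n ih => exact (hN (σ n) (f n) ih).1
  have hext1 : ∀ n, Ext (σ n) (σ (n + 1)) := fun n => (hN (σ n) (f n) (hσ n)).2.1
  have hext : ∀ n m, n ≤ m → Ext (σ n) (σ m) := by
    intro n m h
    induction m, h using Nat.le_induction with
    | base => exact Ext.rfl
    | succ m _ ih => exact ih.trans (hext1 m)
  let z : V → Bool := fun v => if h : ∃ n, v ∈ (σ n).1 then (σ h.choose).2 v else false
  have hz : ∀ n, ∀ v ∈ (σ n).1, z v = (σ n).2 v := by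
    intro n v hv
    have h : ∃ n, v ∈ (σ n).1 := ⟨n, hv⟩
    have e : z v = (σ h.choose).2 v := dif_pos h
    rw [e]
    rcases le_total n h.choose with h1 | h1
    · exact (hext _ _ h1).2 v hv
    · exact ((hext _ _ h1).2 v h.choose_spec).symm
  refine ⟨z, fun c hc Ψ hΨ => ?_⟩
  obtain ⟨n, hn⟩ := hf (c, hΨ.toFinset)
  have h1 := (hN (σ n) (f n) (hσ n)).2.2
  rw [hn] at h1
  obtain ⟨g, g1, g2, g3, g4, g5⟩ := h1 hc
  refine ⟨g, g1, g2, fun φ hφ => g3 φ (hΨ.mem_toFinset.2 hφ), ?_⟩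
  refine hS.loc g _ z (fun i hi => ?_) c g1 g5
  have e : N (σ n) (c, hΨ.toFinset) = σ (n + 1) := by
    show N (σ n) (c, hΨ.toFinset) = N (σ n) (f n)
    rw [hn]
  rw [e] at g4 ⊢
  exact (hz (n + 1) i (g4 hi)).symm

end TS

end UnfS
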