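import Mathlib

/-!
# Selection systems on trees with finite branches
-/

set_option autoImplicit false

universe u

namespace UnfS

open Ordinal Classical

/-- Flip the value at `i`. -/
noncomputable def fp {V : Type u} (i : V) (z : V → Bool) : V → Bool :=
  fun v => if v = i then !(z v) else z v

/-- Change the value at `i` to `b`. -/
noncomputable def up {V : Type u} (z : V → Bool) (i : V) (b : Bool) : V → Bool :=
  fun v => if v = i then b else z v

section fp

variable {V : Type u}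

lemma fp_eq (i : V) (z : V → Bool) : fp i z i = !(z i) := if_pos rfl

lemma fp_ne {i v : V} (z : V → Bool) (h : v ≠ i) : fp i z v = z v := if_neg h

lemma up_eq (z : V → Bool) (i : V) (b : Bool) : up z i b i = b := if_pos rfl

lemma up_ne (z : V → Bool) {i v : V} (b : Bool) (h : v ≠ i) : up z i b v = z v := if_neg h

lemma fp_up (z : V → Bool) (j : V) (b : Bool) : fp j (up z j b) = up z j (!b) := by
  funext v
  by_cases h : v = j
  · subst h; rw [fp_eq, up_eq, up_eq]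
  · rw [fp_ne _ h, up_ne _ _ h, up_ne _ _ h]

lemma fp_up_comm (z : V → Bool) {i j : V} (b : Bool) (h : i ≠ j) :
    fp i (up z j b) = up (fp i z) j b := by
  funext v
  by_cases h1 : v = i
  · subst h1; rw [fp_eq, up_ne _ _ h, up_ne _ _ h, fp_eq]
  · by_cases h2 : v = j
    · subst h2; rw [fp_ne _ h1, up_eq, up_eq]
    · rw [fp_ne _ h1, up_ne _ _ h2, up_ne _ _ h2, fp_ne _ h1]

end fp

/-- A selection system. -/
structure TS (V Γ : Type u) where
  /-- the nodes -/
  P : Set V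
  /-- `Ab i v`: the node `i` lies strictly below `v` -/
  Ab : V → V → Prop
  /-- the cone relation of `c` -/
  Cn : V → V → V → Prop
  /-- the anchor of a gadget -/
  an : Γ → V
  /-- the petals of a gadget -/
  B : Γ → Set V
  /-- the gadget serves the petal -/
  Sv : (V → Bool) → Γ → V → Prop

namespace TS

variable {V Γ : Type u}

/-- The axioms. -/
structure Ok (S : TS V Γ) : Prop where
  irr : ∀ i ∈ S.P, ¬ S.Ab i i
  tr : ∀ i ∈ S.P, ∀ j ∈ S.P, ∀ v, S.Ab i j → S.Ab j v → S.Ab i v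
  ch : ∀ i ∈ S.P, ∀ j ∈ S.P, ∀ v, S.Ab i v → S.Ab j v → i = j ∨ S.Ab i j ∨ S.Ab j i
  fin : ∀ v, {i | i ∈ S.P ∧ S.Ab i v}.Finite
  crefl : ∀ c v, S.Cn c v v
  csymm : ∀ c v w, S.Cn c v w → S.Cn c w v
  ctrans : ∀ c u v w, S.Cn c u v → S.Cn c v w → S.Cn c u w
  cone : ∀ c ∈ S.P, ∀ j ∈ S.P, ∀ v, S.Ab c j → S.Ab j v → S.Cn c j v
  BP : ∀ g, S.B g ⊆ S.P
  Ban : ∀ g, ∀ i ∈ S.B g, i = S.an g ∨ S.Ab i (S.an g)
  loc : ∀ g z z', (∀ i ∈ S.B g, z i = z' i) → ∀ j ∈ S.B g, S.Sv z g j → S.Sv z' g j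
  F : ∀ g z, ∀ i ∈ S.B g, ¬ S.Sv z g i → ∀ j ∈ S.B g, (j = i ∨ S.Sv z g j) → S.Sv (fp i z) g j
  star : ∀ c ∈ S.P, ∀ Φ : Set V, Φ.Finite →
    ∃ g, c ∈ S.B g ∧ S.Ab c (S.an g) ∧ ∀ φ ∈ Φ, ¬ S.Cn c φ (S.an g)

variable (S : TS V Γ)

/-- `j` is a node strictly above `c` and weakly below `v`. -/
def Up (c v j : V) : Prop := j ∈ S.P ∧ S.Ab c j ∧ (j = v ∨ S.Ab j v)

/-- `y` and `w` agree on `c` and below `c`. -/
def Eqp (c : V) (y w : V → Bool) : Prop := ∀ i, (i = c ∨ (i ∈ S.P ∧ S.Ab i c)) → y i = w i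

/-- The finite set `Φ` witnesses that `c` is dead (relative to `Lo`). -/
def DB (Lo : V → (V → Bool) → Prop) (Φ : Set V) (c : V) (w : V → Bool) : Prop :=
  ∀ g, c ∈ S.B g → S.Ab c (S.an g) → (∀ φ ∈ Φ, ¬ S.Cn c φ (S.an g)) →
    ∀ y, S.Eqp c y w → (∀ j, S.Up c (S.an g) j → ¬ Lo j y) → ¬ S.Sv y g c

/-- `c` is dead at level `θ`. -/
def Dead (θ : Ordinal.{u}) (c : V) (w : V → Bool) : Prop :=
  ∃ Φ : Set V, Φ.Finite ∧ S.DB (fun j y => ∃ θ', ∃ _ : θ' < θ, Dead θ' j y) Φ c w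
termination_by θ

/-- `c` is dead at some level below `θ`. -/
def Lo (θ : Ordinal.{u}) (c : V) (w : V → Bool) : Prop := ∃ θ' < θ, S.Dead θ' c w

/-- `c` is alive. -/
def Alive (c : V) (w : V → Bool) : Prop := ∀ θ, ¬ S.Dead θ c w

variable {S}

lemma dead_iff {θ : Ordinal.{u}} {c : V} {w : V → Bool} :
    S.Dead θ c w ↔ ∃ Φ : Set V, Φ.Finite ∧ S.DB (S.Lo θ) Φ c w := by
  rw [Dead]
  have : (fun (j : V) (y : V → Bool) => ∃ θ', ∃ _ : θ' < θ, S.Dead θ' j y) = S.Lo θ := by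
    funext j y
    simp only [Lo, exists_prop]
  rw [this]

lemma Eqp.symm {c : V} {y w : V → Bool} (h : S.Eqp c y w) : S.Eqp c w y :=
  fun i hi => (h i hi).symm

lemma Eqp.trans {c : V} {x y w : V → Bool} (h : S.Eqp c x y) (h' : S.Eqp c y w) : S.Eqp c x w :=
  fun i hi => (h i hi).trans (h' i hi)

lemma Eqp.rfl {c : V} {y : V → Bool} : S.Eqp c y y := fun _ _ => Eq.refl _

lemma DB.congr {L : V → (V → Bool) → Prop} {Φ : Set V} {c : V} {w w' : V → Bool}
    (h : S.DB L Φ c w) (he : S.Eqp c w w') : S.DB L Φ c w' :=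
  fun g h1 h2 h3 y hy h4 => h g h1 h2 h3 y (hy.trans he.symm) h4

lemma DB.mono {L L' : V → (V → Bool) → Prop} {Φ Φ' : Set V} {c : V} {w : V → Bool}
    (h : S.DB L Φ c w) (hL : ∀ j y, L j y → L' j y) (hΦ : Φ ⊆ Φ') : S.DB L' Φ' c w :=
  fun g h1 h2 h3 y hy h4 => h g h1 h2 (fun φ hφ => h3 φ (hΦ hφ)) y hy
    fun j hj hl => h4 j hj (hL j y hl)

lemma Dead.congr {θ : Ordinal.{u}} {c : V} {w w' : V → Bool} (h : S.Dead θ c w)
    (he : S.Eqp c w w') : S.Dead θ c w' := by
  rw [dead_iff] at h ⊢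
  obtain ⟨Φ, hΦ, h⟩ := h
  exact ⟨Φ, hΦ, h.congr he⟩

lemma Lo.congr {θ : Ordinal.{u}} {c : V} {w w' : V → Bool} (h : S.Lo θ c w)
    (he : S.Eqp c w w') : S.Lo θ c w' := by
  obtain ⟨θ', h1, h2⟩ := h
  exact ⟨θ', h1, h2.congr he⟩

lemma Lo.mono {θ θ' : Ordinal.{u}} {c : V} {w : V → Bool} (h : S.Lo θ c w)
    (he : θ ≤ θ') : S.Lo θ' c w := by
  obtain ⟨θ1, h1, h2⟩ := h
  exact ⟨θ1, h1.trans_le he, h2⟩

lemma Alive.congr {c : V} {w w' : V → Bool} (h : S.Alive c w)
    (he : S.Eqp c w w') : S.Alive c w' := fun θ hd => h θ (hd.congr he.symm)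

/-- A finite set of cones to be avoided which works for all levels and colourings. -/
lemma exists_uniform (hS : S.Ok) (c : V) : ∃ Φ : Set V, Φ.Finite ∧
    ∀ θ w, S.Dead θ c w → S.DB (S.Lo θ) Φ c w := by
  set F : Set V := insert c {i | i ∈ S.P ∧ S.Ab i c} with hF
  have hFf : F.Finite := (hS.fin c).insert c
  obtain ⟨wT, hwT⟩ : ∃ wT : Set V → V → Bool, ∀ T v, wT T v = true ↔ v ∈ T :=
    ⟨fun T v => decide (v ∈ T), fun T v => decide_eq_true_iff⟩
  have hmin : ∀ T : Set V, ∃ Φ : Set V, Φ.Finite ∧ ∀ θ, S.Dead θ c (wT T) →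
      S.DB (S.Lo θ) Φ c (wT T) := by
    intro T
    by_cases h : ∃ θ, S.Dead θ c (wT T)
    · have wf : WellFounded (fun a b : Ordinal.{u} => a < b) := wellFounded_lt
      obtain ⟨θ0, h1, h2⟩ := wf.has_min {θ | S.Dead θ c (wT T)} h
      obtain ⟨Φ, hΦ, hd⟩ := dead_iff.1 h1
      exact ⟨Φ, hΦ, fun θ hθ => hd.mono (fun j y hl => Lo.mono hl (not_lt.1 (h2 θ hθ)))
        (Set.Subset.refl _)⟩
    · exact ⟨∅, Set.finite_empty, fun θ hθ => absurd ⟨θ, hθ⟩ h⟩
  choose Φ hΦf hΦ using hmin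
  refine ⟨⋃ T ∈ {T | T ⊆ F}, Φ T, hFf.finite_subsets.biUnion fun T _ => hΦf T, fun θ w hd => ?_⟩
  set T : Set V := {i | i ∈ F ∧ w i = true} with hT
  have he : S.Eqp c w (wT T) := by
    intro i hi
    have hiF : i ∈ F := hi
    rw [Bool.eq_iff_iff, hwT]
    exact ⟨fun h => ⟨hiF, h⟩, fun h => h.2⟩
  have h1 := hΦ T θ (hd.congr he)
  refine (h1.congr he.symm).mono (fun j y h => h) ?_
  exact Set.subset_biUnion_of_mem (u := fun T => Φ T) (show T ∈ {T | T ⊆ F} from fun i hi => hi.1)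

/-! ### Lists of flips -/

/-- The worlds are obtained by successive flips; all items satisfy `Q` at their worlds. -/
def AW (Q : (V → Bool) → Ordinal.{u} × V → Prop) : (V → Bool) → List (Ordinal.{u} × V) → Prop
  | _, [] => True
  | w, x :: L => Q w x ∧ AW Q (fp x.2 w) L

/-- The last world. -/
noncomputable def en : (V → Bool) → List (Ordinal.{u} × V) → (V → Bool)
  | w, [] => w
  | w, x :: L => en (fp x.2 w) L

lemma AW_append {Q : (V → Bool) → Ordinal.{u} × V → Prop} {A B : List (Ordinal.{u} × V)} :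
    ∀ {w : V → Bool}, AW Q w (A ++ B) ↔ AW Q w A ∧ AW Q (en w A) B := by
  induction A with
  | nil => intro w; simp [AW, en]
  | cons x A ih => intro w; simp only [List.cons_append, AW, en, ih, and_assoc]

lemma AW.mono {Q Q' : (V → Bool) → Ordinal.{u} × V → Prop} {L : List (Ordinal.{u} × V)} :
    ∀ {w : V → Bool}, AW Q w L → (∀ w, ∀ x ∈ L, Q w x → Q' w x) → AW Q' w L := by
  induction L with
  | nil => intro w _ _; trivial
  | cons x L ih =>
    intro w h hQ
    exact ⟨hQ w x List.mem_cons_self h.1, ih h.2 fun w y hy => hQ w y (List.mem_cons_of_mem x hy)⟩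

lemma AW.and {Q Q' : (V → Bool) → Ordinal.{u} × V → Prop} {L : List (Ordinal.{u} × V)} :
    ∀ {w : V → Bool}, AW Q w L → AW Q' w L → AW (fun w x => Q w x ∧ Q' w x) w L := by
  induction L with
  | nil => intro w _ _; trivial
  | cons x L ih => intro w h h'; exact ⟨⟨h.1, h'.1⟩, ih h.2 h'.2⟩

lemma AW.mem {Q : (V → Bool) → Ordinal.{u} × V → Prop} {L : List (Ordinal.{u} × V)} :
    ∀ {w : V → Bool}, AW Q w L → ∀ x ∈ L, ∃ w', Q w' x := by
  induction L with
  | nil => intro w _ x hx; exact absurd hx List.not_mem_nil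
  | cons y L ih =>
    intro w h x hx
    rcases List.mem_cons.1 hx with rfl | hx
    · exact ⟨w, h.1⟩
    · exact ih h.2 x hx

lemma AW_up {Q : (V → Bool) → Ordinal.{u} × V → Prop} {j : V} {b : Bool}
    {L : List (Ordinal.{u} × V)} : ∀ {w : V → Bool}, (∀ x ∈ L, x.2 ≠ j) →
      AW (fun w x => Q (up w j b) x) w L → AW Q (up w j b) L := by
  induction L with
  | nil => intro w _ _; trivial
  | cons x L ih =>
    intro w hne h
    refine ⟨h.1, ?_⟩
    rw [fp_up_comm w b (hne x List.mem_cons_self)]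
    exact ih (fun y hy => hne y (List.mem_cons_of_mem x hy)) h.2

lemma en_up {j : V} {b : Bool} {L : List (Ordinal.{u} × V)} : ∀ {w : V → Bool},
    (∀ x ∈ L, x.2 ≠ j) → en (up w j b) L = up (en w L) j b := by
  induction L with
  | nil => intro w _; rfl
  | cons x L ih =>
    intro w hne
    show en (fp x.2 (up w j b)) L = up (en (fp x.2 w) L) j b
    rw [fp_up_comm w b (hne x List.mem_cons_self)]
    exact ih (fun y hy => hne y (List.mem_cons_of_mem x hy))

lemma en_append {A B : List (Ordinal.{u} × V)} : ∀ {w : V → Bool}, en w (A ++ B) = en (en w A) B := by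
  induction A with
  | nil => intro w; rfl
  | cons x A ih => intro w; exact ih

/-- The first bad item. -/
lemma first {R : (V → Bool) → Ordinal.{u} × V → Prop} {L : List (Ordinal.{u} × V)} :
    ∀ {w : V → Bool}, ¬ AW (fun w x => ¬ R w x) w L → ∃ M b C, L = M ++ b :: C ∧
      AW (fun w x => ¬ R w x) w M ∧ R (en w M) b := by
  induction L with
  | nil => intro w h; exact absurd trivial h
  | cons x L ih =>
    intro w h
    by_cases hx : R w x
    · exact ⟨[], x, L, rfl, trivial, hx⟩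
    · have h' : ¬ AW (fun w x => ¬ R w x) (fp x.2 w) L := fun h'' => h ⟨hx, h''⟩
      obtain ⟨M, b, C, h1, h2, h3⟩ := ih h'
      exact ⟨x :: M, b, C, by rw [h1]; rfl, ⟨hx, h2⟩, h3⟩

/-- If some item is bad for each value, there is a segment as required. -/
lemma dec {R : Bool → (V → Bool) → Ordinal.{u} × V → Prop} {L : List (Ordinal.{u} × V)} :
    ∀ {w : V → Bool}, (∀ v, ¬ AW (fun w x => ¬ R v w x) w L) → ∃ v A M b C,
      L = A ++ (M ++ b :: C) ∧ AW (fun w x => ¬ R (!v) w x) (en w A) M ∧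
      R (!v) (en (en w A) M) b ∧ ∃ h T, M ++ [b] = h :: T ∧ R v (en w A) h := by
  induction L with
  | nil => intro w h; exact absurd trivial (h true)
  | cons x L ih =>
    intro w h
    by_cases h0 : ∃ v, R v w x
    · obtain ⟨v, hv⟩ := h0
      obtain ⟨M, b, C, h1, h2, h3⟩ := first (h (!v))
      refine ⟨v, [], M, b, C, h1, h2, h3, ?_⟩
      cases M with
      | nil =>
        refine ⟨b, [], rfl, ?_⟩
        rw [List.nil_append, List.cons.injEq] at h1
        rw [← h1.1]; exact hv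
      | cons y M =>
        refine ⟨y, M ++ [b], rfl, ?_⟩
        rw [List.cons_append, List.cons.injEq] at h1
        rw [← h1.1]; exact hv
    · push Not at h0
      obtain ⟨v, A, M, b, C, h1, h2, h3, h4⟩ := ih (w := fp x.2 w) fun v hv => h v ⟨h0 v, hv⟩
      exact ⟨v, x :: A, M, b, C, by rw [h1]; rfl, h2, h3, h4⟩

/-! ### The measure -/

/-- The sum of `ω ^ λ`. -/
noncomputable def sm : List (Ordinal.{u} × V) → Ordinal.{u}
  | [] => 0
  | x :: L => ω ^ x.1 + sm L

lemma sm_append {A B : List (Ordinal.{u} × V)} : sm (A ++ B) = sm A + sm B := by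
  induction A with
  | nil => simp [sm]
  | cons x A ih => simp only [List.cons_append, sm, ih, add_assoc]

lemma sm_lt {A M C : List (Ordinal.{u} × V)} {b : Ordinal.{u} × V} {θ' θ'' : Ordinal.{u}} {j : V}
    (h2 : θ'' < b.1) (h1 : ∃ h T, M ++ [b] = h :: T ∧ θ' < h.1) :
    sm ((θ', j) :: (M ++ [(θ'', j)])) < sm (A ++ (M ++ b :: C)) := by
  have e1 : sm ((θ', j) :: (M ++ [(θ'', j)])) < sm M + ω ^ b.1 := by
    have e : sm ((θ', j) :: (M ++ [(θ'', j)])) = ω ^ θ' + (sm M + ω ^ θ'') := by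
      simp [sm, sm_append]
    rw [e]
    obtain ⟨h, T, hT, hlt⟩ := h1
    have hω : ω ^ θ'' < ω ^ b.1 := (Ordinal.opow_lt_opow_iff_right one_lt_omega0).2 h2
    cases M with
    | nil =>
      simp only [List.nil_append, List.cons.injEq] at hT
      rw [← hT.1] at hlt
      simp only [sm, zero_add]
      exact isPrincipal_add_omega0_opow b.1
        ((Ordinal.opow_lt_opow_iff_right one_lt_omega0).2 hlt) hω
    | cons y M =>
      simp only [List.cons_append, List.cons.injEq] at hT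
      rw [← hT.1] at hlt
      have hy : ω ^ θ' < ω ^ y.1 := (Ordinal.opow_lt_opow_iff_right one_lt_omega0).2 hlt
      have e2 : ω ^ θ' + sm (y :: M) = sm (y :: M) := by
        show ω ^ θ' + (ω ^ y.1 + sm M) = ω ^ y.1 + sm M
        rw [← add_assoc, add_omega0_opow hy]
      rw [← add_assoc, e2]
      exact (add_lt_add_iff_left _).2 hω
  refine e1.trans_le ?_
  rw [sm_append, sm_append]
  show sm M + ω ^ b.1 ≤ sm A + (sm M + (ω ^ b.1 + sm C))
  calc sm M + ω ^ b.1 ≤ sm M + (ω ^ b.1 + sm C) := by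
        gcongr
        exact le_self_add
    _ ≤ sm A + (sm M + (ω ^ b.1 + sm C)) := le_add_self

end TS

end UnfS
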